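import Pool.Agent.Y303.EJ.W

open Set Filter Topology MeasureTheory Metric

set_option autoImplicit false

namespace Pool.Agent.Y702.EJ

theorem pr : ∀ (t : ℝ) (z b y a : ℝ → ℝ), 0 ≤ t → IntervalIntegrable b volume 0 t →
    IntervalIntegrable a volume 0 t → (∀ r ∈ Icc 0 t, z r = z 0 + ∫ τ in (0 : ℝ)..r, b τ) →
    (∀ r ∈ Icc 0 t, y r = y 0 + ∫ τ in (0 : ℝ)..r, a τ) →
    IntervalIntegrable (fun τ => b τ * y τ + z τ * a τ) volume 0 t ∧
    z t * y t = z 0 * y 0 + ∫ τ in (0 : ℝ)..t, (b τ * y τ + z τ * a τ) := by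
  intro t z b y a ht hb ha hz hy
  set Z : ℝ → ℝ := fun r => z 0 + ∫ τ in (0 : ℝ)..r, b τ with hZ
  set Y : ℝ → ℝ := fun r => y 0 + ∫ τ in (0 : ℝ)..r, a τ with hY
  have hu : uIcc (0 : ℝ) t = Icc 0 t := uIcc_of_le ht
  have cst : ∀ c : ℝ, AbsolutelyContinuousOnInterval (fun _ : ℝ => c) 0 t := fun c =>
    (contDiffOn_const (c := c)).absolutelyContinuousOnInterval
  have hZac : AbsolutelyContinuousOnInterval Z 0 t :=
    (cst (z 0)).add (hb.absolutelyContinuousOnInterval_intervalIntegral (c := 0) (by simp))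
  have hYac : AbsolutelyContinuousOnInterval Y 0 t :=
    (cst (y 0)).add (ha.absolutelyContinuousOnInterval_intervalIntegral (c := 0) (by simp))
  have hZc : ContinuousOn Z (Icc 0 t) := hu ▸ hZac.continuousOn
  have hYc : ContinuousOn Y (Icc 0 t) := hu ▸ hYac.continuousOn
  have hzc : ContinuousOn z (uIcc 0 t) := by rw [hu]; exact hZc.congr hz
  have hyc : ContinuousOn y (uIcc 0 t) := by rw [hu]; exact hYc.congr hy
  refine ⟨(hb.mul_continuousOn hyc).add (ha.continuousOn_mul hzc), ?_⟩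
  have h1 := hZac.integral_deriv_mul_eq_sub hYac
  have e0 : Z 0 = z 0 := by simp [hZ]
  have e0' : Y 0 = y 0 := by simp [hY]
  have e1 : Z t = z t := (hz t ⟨ht, le_rfl⟩).symm
  have e1' : Y t = y t := (hy t ⟨ht, le_rfl⟩).symm
  rw [e0, e0', e1, e1'] at h1
  have h2 : ∫ x in (0 : ℝ)..t, deriv Z x * Y x + Z x * deriv Y x =
      ∫ τ in (0 : ℝ)..t, (b τ * y τ + z τ * a τ) := by
    apply intervalIntegral.integral_congr_ae
    filter_upwards [hb.ae_hasDerivAt_integral, ha.ae_hasDerivAt_integral] with x hx hx' hxm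
    have hxu : x ∈ uIcc (0 : ℝ) t := uIoc_subset_uIcc hxm
    have d1 : HasDerivAt Z (b x) x := by
      have := (hx hxu 0 (by simp)).const_add (z 0)
      exact this
    have d2 : HasDerivAt Y (a x) x := by
      have := (hx' hxu 0 (by simp)).const_add (y 0)
      exact this
    rw [d1.deriv, d2.deriv, hz x (hu ▸ hxu), hy x (hu ▸ hxu)]
  rw [← h2, h1]
  ring

theorem gr : ∀ (t K M : ℝ) (g : ℝ → ℝ), 0 ≤ t → 0 ≤ K → IntervalIntegrable g volume 0 t →
    (∀ τ ∈ Icc 0 t, 0 ≤ g τ ∧ g τ ≤ M) → (∀ τ ∈ Icc 0 t, g τ ≤ K * ∫ r in (0 : ℝ)..τ, g r) →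
    ∀ τ ∈ Icc 0 t, g τ = 0 := by
  intro t K M g ht hK hg hb hi
  have key : ∀ n : ℕ, ∀ τ ∈ Icc 0 t, g τ ≤ M * (K * τ) ^ n / n.factorial := by
    intro n
    induction n with
    | zero => intro τ hτ; simpa using (hb τ hτ).2
    | succ n ih =>
      intro τ hτ
      have h1 : ∫ r in (0 : ℝ)..τ, g r ≤ ∫ r in (0 : ℝ)..τ, M * (K * r) ^ n / n.factorial := by
        apply intervalIntegral.integral_mono_on hτ.1
        · exact hg.mono_set (by
            rw [uIcc_of_le hτ.1, uIcc_of_le ht]; exact Icc_subset_Icc le_rfl hτ.2)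
        · apply Continuous.intervalIntegrable
          fun_prop
        · intro x hx
          exact ih x ⟨hx.1, hx.2.trans hτ.2⟩
      have h2 : ∫ r in (0 : ℝ)..τ, M * (K * r) ^ n / n.factorial =
          M * K ^ n * τ ^ (n + 1) / (n.factorial * (n + 1)) := by
        have : (fun r : ℝ => M * (K * r) ^ n / n.factorial) =
            fun r : ℝ => (M * K ^ n / n.factorial) * r ^ n := by
          funext r; rw [mul_pow]; ring
        rw [this, intervalIntegral.integral_const_mul, integral_pow]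
        simp
        field_simp
      have h3 := hi τ hτ
      have h4 : K * ∫ r in (0 : ℝ)..τ, g r ≤ K * (M * K ^ n * τ ^ (n + 1) / (n.factorial * (n + 1))) :=
        mul_le_mul_of_nonneg_left (h1.trans h2.le) hK
      refine h3.trans (h4.trans (le_of_eq ?_))
      rw [Nat.factorial_succ, mul_pow]
      push_cast
      field_simp
      ring
  intro τ hτ
  refine le_antisymm ?_ (hb τ hτ).1
  have hlim : Tendsto (fun n : ℕ => M * (K * τ) ^ n / n.factorial) atTop (𝓝 0) := by
    have := (FloorSemiring.tendsto_pow_div_factorial_atTop (K * τ)).const_mul M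
    simpa [mul_div_assoc] using this
  exact ge_of_tendsto' hlim (fun n => key n τ hτ)

theorem t_PR : Pool.Agent.Y303.EJ.S_PR := pr

theorem t_GR : Pool.Agent.Y303.EJ.S_GR := gr

end Pool.Agent.Y702.EJ
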